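import Pool.Agent.H334R5.Hey.Main

/-!
# Primitivity of the quasivariety generated by a finite Heyting algebra is decidable

The definitions (algebras, terms, quasi-identities, `Alg.Q`, `Primitive`, `Alg.IsHeyting`, codes of
finite algebras) are in `Pool.Agent.H334R5.Hey.Defs`.
-/

set_option autoImplicit false

namespace Pool.Agent.Results.MP_51e3d2_lc.DecidablePrimitivity

open Pool.Agent.H334R5.Hey

/-- It is decidable whether a finite algebra, given by the tables of its operations, is a Heyting
algebra which generates a primitive quasivariety. -/
theorem result : ComputablePred (fun c : Code => c.alg.IsHeyting ∧ Primitive c.alg.Q) :=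
  main_computable

end Pool.Agent.Results.MP_51e3d2_lc.DecidablePrimitivity
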